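import Pool.Agent.H62.NegCurv.Final

/-!
# A quasi-isometry far from every isometry

There is a compact connected Riemannian 3-manifold `M` with strictly negative sectional curvature
and nonempty totally geodesic boundary, and a quasi-isometry of its universal cover (with its path
metric) which is at infinite distance from every isometry.

The manifold is presented as `M = X / Γ` (`CompactNegCurved`): `X` is the universal cover and `Γ`
the deck group.

Construction. Take the hyperbolic metric of the Klein model of the form
`-7 x₀² + x₁² + x₂² + x₃²`, the principal congruence subgroup of level 8, and the region `X` of
the base point cut out by the walls orthogonal to the integral vectors of norm `1` which are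
congruent to `± (0,1,0,0)` modulo 8. Multiply the metric by `exp (2 u)`, where `u` is a small
invariant bump function supported near one orbit. The reflection `x₂ ↦ -x₂` preserves `X` and is a
quasi-isometry. It moves an axis through the bumps to an axis avoiding them, so it changes the
translation length, and hence it is not at bounded distance from an isometry.
-/

namespace Pool.Agent.Results.MP_bad20c_gt.QINotNearIsometry

open Pool.Agent.H62.CompactNeg

/-- Negative answer to Q1: a compact negatively curved 3-manifold with nonempty totally geodesic
boundary, and a quasi-isometry of its universal cover at unbounded distance from every
isometry. -/
theorem result : ∃ (M : CompactNegCurved 3) (f : M.X → M.X), IsQuasiIsometry M.dist f ∧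
    ∀ ψ : M.X → M.X, IsIsometry M.dist ψ → ¬ BoundedDistance M.dist f ψ :=
  Pool.Agent.H62.NegCurv.main

end Pool.Agent.Results.MP_bad20c_gt.QINotNearIsometry
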